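import Pool.Agent.Helper54.DT.StmtsS

namespace Pool.Agent.Helper42.DCT

open Finset Pool.Agent.Helper54.DT Pool.Agent.Helper54.ETR Pool.Agent.Helper54.Poly

/-- the bilinear form -/
noncomputable def GINV_bl (I : Finset ℕ) (H : ℕ → ℕ → ℝ) : (ℕ → ℝ) →ₗ[ℝ] (ℕ → ℝ) →ₗ[ℝ] ℝ :=
  LinearMap.mk₂ ℝ (fun u v => ∑ i ∈ I, ∑ j ∈ I, u i * v j * H i j)
    (fun u u' v => by
      simp only [← Finset.sum_add_distrib]
      refine Finset.sum_congr rfl fun i _ => Finset.sum_congr rfl fun j _ => ?_
      simp only [Pi.add_apply]; ring)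
    (fun c u v => by
      simp only [smul_eq_mul, Finset.mul_sum]
      refine Finset.sum_congr rfl fun i _ => Finset.sum_congr rfl fun j _ => ?_
      simp only [Pi.smul_apply, smul_eq_mul]; ring)
    (fun u v v' => by
      simp only [← Finset.sum_add_distrib]
      refine Finset.sum_congr rfl fun i _ => Finset.sum_congr rfl fun j _ => ?_
      simp only [Pi.add_apply]; ring)
    (fun c u v => by
      simp only [smul_eq_mul, Finset.mul_sum]
      refine Finset.sum_congr rfl fun i _ => Finset.sum_congr rfl fun j _ => ?_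
      simp only [Pi.smul_apply, smul_eq_mul]; ring)

theorem GINV_bl_apply (I : Finset ℕ) (H : ℕ → ℕ → ℝ) (u v : ℕ → ℝ) :
    GINV_bl I H u v = ∑ i ∈ I, ∑ j ∈ I, u i * v j * H i j := rfl

/-- the rows as a linear map -/
noncomputable def GINV_A (I : Finset ℕ) (R : ℕ) (e : ℕ → ℕ → ℝ) (tg : ℕ → Bool) :
    (ℕ → ℝ) →ₗ[ℝ] (Fin R → ℝ) where
  toFun w r := if tg r then ∑ i ∈ I, e r i * w i else 0
  map_add' u v := by
    funext r
    simp only [Pi.add_apply, mul_add, Finset.sum_add_distrib]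
    split_ifs <;> simp
  map_smul' c u := by
    funext r
    simp only [Pi.smul_apply, smul_eq_mul, RingHom.id_apply]
    split_ifs
    · rw [Finset.mul_sum]
      refine Finset.sum_congr rfl fun i _ => by ring
    · simp

theorem GINV_inv {V W : Type} [AddCommGroup V] [Module ℝ V] [AddCommGroup W] [Module ℝ W]
    (A : V →ₗ[ℝ] W) : ∃ B : W →ₗ[ℝ] V, ∀ w, A (B (A w)) = A w := by
  obtain ⟨g, hg⟩ := A.rangeRestrict.exists_rightInverse_of_surjective
    (LinearMap.range_rangeRestrict A)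
  obtain ⟨B, hB⟩ := LinearMap.exists_extend g
  refine ⟨B, fun w => ?_⟩
  have h1 : B (A w) = g ⟨A w, LinearMap.mem_range_self A w⟩ := by
    have := congrArg (fun f => f ⟨A w, LinearMap.mem_range_self A w⟩) hB
    simpa using this
  have h2 : A.rangeRestrict (g ⟨A w, LinearMap.mem_range_self A w⟩)
      = ⟨A w, LinearMap.mem_range_self A w⟩ := by
    exact LinearMap.congr_fun hg _
  rw [h1]
  exact congrArg Subtype.val h2

theorem GINV_m (I : Finset ℕ) (R : ℕ) (e : ℕ → ℕ → ℝ) (tg : ℕ → Bool) :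
    ∃ m : ℕ → ℕ → ℝ, ∀ w : ℕ → ℝ, ∀ r < R, tg r = true →
      ∑ i ∈ I, e r i * (w - ∑ s ∈ range R, (if tg s then ∑ i ∈ I, e s i * w i else 0) • m s) i
        = 0 := by
  obtain ⟨B, hB⟩ := GINV_inv (GINV_A I R e tg)
  refine ⟨fun s => if h : s < R then B (Pi.single ⟨s, h⟩ 1) else 0, fun w r hr ht => ?_⟩
  have h1 : B (GINV_A I R e tg w) = ∑ s ∈ range R,
      (if tg s then ∑ i ∈ I, e s i * w i else 0) •
        (if h : s < R then B (Pi.single ⟨s, h⟩ 1) else 0) := by
    have h2 : GINV_A I R e tg w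
        = ∑ s : Fin R, (GINV_A I R e tg w s) • (Pi.single s (1 : ℝ) : Fin R → ℝ) := by
      funext r
      simp [Finset.sum_apply, Pi.single_apply]
    rw [h2, map_sum, Finset.sum_range]
    refine Finset.sum_congr rfl fun s _ => ?_
    rw [map_smul, dif_pos s.2]
    rfl
  have h3 := congrFun (hB w) ⟨r, hr⟩
  rw [h1] at h3
  have h4 : ∀ v : ℕ → ℝ, GINV_A I R e tg v ⟨r, hr⟩ = ∑ i ∈ I, e r i * v i := by
    intro v
    show (if tg r then ∑ i ∈ I, e r i * v i else 0) = _
    rw [if_pos ht]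
  rw [h4, h4] at h3
  simp only [Pi.sub_apply, mul_sub, Finset.sum_sub_distrib]
  rw [← h3, sub_self]

theorem st_GINV : ST_GINV := by
  intro M R H e tg hH hV
  set I := Ico 1 M with hI
  obtain ⟨m, hm⟩ := GINV_m I R e tg
  refine ⟨fun r i => -∑ a ∈ I, m r a * H a i
    + 1 / 2 * ∑ s ∈ range R, (if tg s then e s i else 0) * GINV_bl I H (m r) (m s), fun w => ?_⟩
  set a : ℕ → ℝ := fun s => if tg s then ∑ i ∈ I, e s i * w i else 0 with ha
  set q : ℕ → ℝ := ∑ s ∈ range R, a s • m s with hq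
  have hp := hV (w - q) (fun r hr ht => hm w r hr ht)
  have hp' : 0 ≤ GINV_bl I H (w - q) (w - q) := hp
  have hsym : ∀ u v : ℕ → ℝ, GINV_bl I H u v = GINV_bl I H v u := by
    intro u v
    rw [GINV_bl_apply, GINV_bl_apply, Finset.sum_comm]
    refine Finset.sum_congr rfl fun i _ => Finset.sum_congr rfl fun j _ => ?_
    rw [hH i j]; ring
  have hl : ∀ r, ∑ i ∈ I, (-∑ a ∈ I, m r a * H a i
      + 1 / 2 * ∑ s ∈ range R, (if tg s then e s i else 0) * GINV_bl I H (m r) (m s)) * w i
      = -GINV_bl I H (m r) w + 1 / 2 * GINV_bl I H (m r) q := by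
    intro r
    have e1 : GINV_bl I H (m r) q = ∑ s ∈ range R, a s * GINV_bl I H (m r) (m s) := by
      rw [hq, map_sum]
      refine Finset.sum_congr rfl fun s _ => ?_
      rw [map_smul, smul_eq_mul]
    have e2 : GINV_bl I H (m r) w = ∑ i ∈ I, (∑ a ∈ I, m r a * H a i) * w i := by
      rw [GINV_bl_apply, Finset.sum_comm]
      refine Finset.sum_congr rfl fun i _ => ?_
      rw [Finset.sum_mul]
      refine Finset.sum_congr rfl fun j _ => by ring
    have e3 : ∀ s, a s = ∑ i ∈ I, (if tg s then e s i else 0) * w i := by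
      intro s
      simp only [ha]
      split_ifs
      · rfl
      · simp
    rw [e1, e2]
    simp_rw [e3, Finset.sum_mul, Finset.mul_sum]
    rw [Finset.sum_comm (s := range R), ← Finset.sum_neg_distrib, ← Finset.sum_add_distrib]
    refine Finset.sum_congr rfl fun i _ => ?_
    rw [add_mul, neg_mul, Finset.sum_mul, Finset.sum_mul]
    congr 1
    refine Finset.sum_congr rfl fun s _ => by ring
  have h5 : ∑ r ∈ range R, (if tg r then (∑ i ∈ I, e r i * w i) * (∑ i ∈ I,
      (-∑ a ∈ I, m r a * H a i + 1 / 2 * ∑ s ∈ range R, (if tg s then e s i else 0)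
        * GINV_bl I H (m r) (m s)) * w i) else 0)
      = -GINV_bl I H q w + 1 / 2 * GINV_bl I H q q := by
    have e1 : ∀ v : ℕ → ℝ, GINV_bl I H q v = ∑ s ∈ range R, a s * GINV_bl I H (m s) v := by
      intro v
      have : GINV_bl I H q = ∑ s ∈ range R, a s • GINV_bl I H (m s) := by
        rw [hq, map_sum]
        refine Finset.sum_congr rfl fun s _ => ?_
        rw [map_smul]
      rw [this, LinearMap.sum_apply]
      refine Finset.sum_congr rfl fun s _ => ?_
      rw [LinearMap.smul_apply, smul_eq_mul]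
    rw [e1 w, e1 q, Finset.mul_sum, ← Finset.sum_neg_distrib, ← Finset.sum_add_distrib]
    refine Finset.sum_congr rfl fun r _ => ?_
    rw [hl r]
    simp only [ha]
    split_ifs
    · ring
    · simp
  have h6 : GINV_bl I H (w - q) (w - q)
      = GINV_bl I H w w + 2 * (-GINV_bl I H q w + 1 / 2 * GINV_bl I H q q) := by
    have e4 : GINV_bl I H (w - q) = GINV_bl I H w - GINV_bl I H q := map_sub _ _ _
    rw [e4, LinearMap.sub_apply, map_sub, map_sub, hsym w q]
    ring
  have h7 : 0 ≤ GINV_bl I H w w + 2 * (-GINV_bl I H q w + 1 / 2 * GINV_bl I H q q) := by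
    rw [← h6]; exact hp'
  rw [← h5] at h7
  exact h7

end Pool.Agent.Helper42.DCT
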