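import Pool.Agent.Helper54.DT.StmtsS

namespace Pool.Agent.Helper42.DCT

open Finset Pool.Agent.Helper54.DT Pool.Agent.Helper54.ETR Pool.Agent.Helper54.Poly

theorem st_ROWE (h : ST_CFE) : ST_ROWE := by
  intro lin x r m
  unfold rowC
  simp only [List.length_map]
  by_cases h1 : r < lin.length
  · rw [if_pos h1, if_pos h1]
    have e1 : (lin.map PPT).getD r (fun _ _ => oT.zero) = PPT (lin[r]) := by
      rw [List.getD_eq_getElem _ _ (by simpa using h1), List.getElem_map]
    have e2 : (lin.map PPR).getD r (fun _ _ => oR.zero) = PPR (lin[r]) := by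
      rw [List.getD_eq_getElem _ _ (by simpa using h1), List.getElem_map]
    rw [e1, e2]
    exact (h lin[r] x).1 m
  · rw [if_neg h1, if_neg h1]
    split_ifs <;> exact ⟨rfl, rfl⟩

end Pool.Agent.Helper42.DCT
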